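import Pool.Agent.H80.PK.KStmts

/-!
# Row COE of the board `pkt`
-/

set_option autoImplicit false

namespace Pool.PK

open Finset

private theorem co_nonneg (k : ℕ) : 0 ≤ co k := by
  induction k with
  | zero => exact zero_le_one
  | succ k ih => exact mul_nonneg ih (by positivity)

private theorem co_le_one (k : ℕ) : co k ≤ 1 := by
  induction k with
  | zero => exact le_rfl
  | succ k ih =>
    refine mul_le_one₀ ih (by positivity) ?_
    rw [div_le_one (by positivity)]
    linarith

private theorem co_succ (k : ℕ) : ((k : ℝ) + 1) * co (k + 1) = ((k : ℝ) + 1 / 2) * co k := by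
  have h : co (k + 1) = co k * ((2 * k + 1) / (2 * k + 2)) := rfl
  rw [h]
  field_simp

private theorem coe_sym (k : ℕ) :
    ∑ p ∈ antidiagonal k, (p.1 : ℝ) * (co p.1 * co p.2) =
      ∑ p ∈ antidiagonal k, (p.2 : ℝ) * (co p.1 * co p.2) := by
  rw [← Finset.Nat.sum_antidiagonal_swap]
  exact Finset.sum_congr rfl fun p _ => by
    simp only [Prod.fst_swap, Prod.snd_swap]
    ring

private theorem coe_half (k : ℕ) :
    2 * ∑ p ∈ antidiagonal k, (p.1 : ℝ) * (co p.1 * co p.2) =
      k * ∑ p ∈ antidiagonal k, co p.1 * co p.2 := by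
  rw [two_mul]
  nth_rewrite 2 [coe_sym]
  rw [← Finset.sum_add_distrib, Finset.mul_sum]
  refine Finset.sum_congr rfl fun p hp => ?_
  have : p.1 + p.2 = k := mem_antidiagonal.1 hp
  rw [← this]
  push_cast
  ring

theorem COE : COEStmt := by
  refine ⟨fun k => ⟨co_nonneg k, co_le_one k⟩, fun k => ?_⟩
  induction k with
  | zero => simp [co]
  | succ k ih =>
    have h1 := coe_half (k + 1)
    rw [Finset.Nat.sum_antidiagonal_succ (f := fun p : ℕ × ℕ => (p.1 : ℝ) * (co p.1 * co p.2))]
      at h1
    simp only [Nat.cast_zero, zero_mul, zero_add] at h1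
    have h2 : ∑ p ∈ antidiagonal k, ((p.1 + 1 : ℕ) : ℝ) * (co (p.1 + 1) * co p.2) =
        ∑ p ∈ antidiagonal k, (p.1 : ℝ) * (co p.1 * co p.2) +
          1 / 2 * ∑ p ∈ antidiagonal k, co p.1 * co p.2 := by
      rw [Finset.mul_sum, ← Finset.sum_add_distrib]
      refine Finset.sum_congr rfl fun p _ => ?_
      have := co_succ p.1
      push_cast
      linear_combination (co p.2) * this
    rw [h2] at h1
    have h3 := coe_half k
    rw [ih] at h3 h1
    have h4 : ((k : ℝ) + 1) * ∑ p ∈ antidiagonal (k + 1), co p.1 * co p.2 = (k : ℝ) + 1 := by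
      push_cast at h1
      linarith
    have h5 : ((k : ℝ) + 1) ≠ 0 := by positivity
    exact mul_left_cancel₀ h5 (h4.trans (mul_one _).symm)

end Pool.PK
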