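import Pool.Agent.H80.PK.KStmts

/-!
# Row HFF of the board `pkt`
-/

set_option autoImplicit false

namespace Pool.PK

theorem HFF : HFFStmt := by
  intro A _ _ _ x hx
  have h0 : dev x = 0 := by
    unfold dev
    rw [mul_sub, mul_one, hx, sub_self, mul_zero]
  have h1 : ∑' k : ℕ, ((co k : ℝ) : ℂ) • (dev x) ^ k = 1 := by
    rw [tsum_eq_single 0]
    · rw [pow_zero, show co 0 = 1 from rfl, Complex.ofReal_one, one_smul]
    · intro k hk
      rw [h0, zero_pow hk, smul_zero]
  unfold hfc
  rw [h1, mul_one]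
  have h2 : (1 : A) + (2 * x - 1) = (2 : ℂ) • x := by
    rw [Algebra.smul_def, map_ofNat]
    abel
  rw [h2, smul_smul]
  norm_num

end Pool.PK
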