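import Pool.Agent.H80.PK.GStmts

/-!
# Board `pkt`, row ONE: the operator norm on `L^∞` is the `L^1` norm
-/

set_option autoImplicit false

namespace Pool.PK

namespace H14ONE

open MeasureTheory Filter Topology
open scoped Pointwise ENNReal

variable {G : Type} [Group G] [TopologicalSpace G] [IsTopologicalGroup G]
  [MeasurableSpace G] [BorelSpace G] (μ : Measure G) [μ.IsHaarMeasure]

lemma lpn_one (f : CG μ) : lpn μ 1 f = ∫ x, ‖f.1 x‖ ∂μ := by
  unfold lpn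
  rw [eLpNorm_one_eq_lintegral_enorm, integral_norm_eq_lintegral_enorm]
  exact (f.2.1.integrable_of_hasCompactSupport f.2.2).1

lemma le_lpn_top (f : CG μ) (x : G) : ‖f.1 x‖ ≤ lpn μ ∞ f := by
  have hfin : eLpNorm (f.1 : G → ℂ) ∞ μ ≠ ∞ :=
    (f.2.1.memLp_of_hasCompactSupport f.2.2 (p := ∞) (μ := μ)).2.ne
  have hae : ∀ᵐ y ∂μ, ‖f.1 y‖ₑ ≤ eLpNorm (f.1 : G → ℂ) ∞ μ := by
    rw [eLpNorm_exponent_top]
    exact ae_le_eLpNormEssSup
  have hopen : IsOpen {y | eLpNorm (f.1 : G → ℂ) ∞ μ < ‖f.1 y‖ₑ} :=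
    isOpen_lt continuous_const f.2.1.enorm
  have hzero : μ {y | eLpNorm (f.1 : G → ℂ) ∞ μ < ‖f.1 y‖ₑ} = 0 := by
    rw [← nonpos_iff_eq_zero]
    refine (measure_mono ?_).trans (ae_iff.mp hae).le
    intro y hy
    exact not_le.mpr hy
  have hempty := (hopen.measure_eq_zero_iff μ).mp hzero
  have hx : ‖f.1 x‖ₑ ≤ eLpNorm (f.1 : G → ℂ) ∞ μ := by
    by_contra h
    have : x ∈ {y | eLpNorm (f.1 : G → ℂ) ∞ μ < ‖f.1 y‖ₑ} := not_le.mp h
    rw [hempty] at this
    exact this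
  have h2 := ENNReal.toReal_mono hfin hx
  rwa [toReal_enorm] at h2

omit [μ.IsHaarMeasure] in
lemma lpn_top_le (f : CG μ) (c : ℝ) (hc : 0 ≤ c) (h : ∀ x, ‖f.1 x‖ ≤ c) : lpn μ ∞ f ≤ c := by
  unfold lpn
  rw [eLpNorm_exponent_top]
  exact ENNReal.toReal_le_of_le_ofReal hc
    (eLpNormEssSup_le_of_ae_bound (Eventually.of_forall h))

/-- the test function -/
noncomputable def tst (f : CG μ) (ε : ℝ) (hε : 0 < ε) : CG μ :=
  ⟨fun z => (starRingEnd ℂ) (f.1 z⁻¹) / ((‖f.1 z⁻¹‖ + ε : ℝ) : ℂ), by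
    constructor
    · refine Continuous.div ?_ ?_ ?_
      · exact Complex.continuous_conj.comp (f.2.1.comp continuous_inv)
      · exact Complex.continuous_ofReal.comp
          ((f.2.1.comp continuous_inv).norm.add continuous_const)
      · intro z
        have : 0 < ‖f.1 z⁻¹‖ + ε := by positivity
        exact_mod_cast this.ne'
    · have h : HasCompactSupport (fun z => f.1 z⁻¹) :=
        f.2.2.comp_homeomorph (Homeomorph.inv G)
      refine HasCompactSupport.intro (K := tsupport (fun z => f.1 z⁻¹)) h ?_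
      intro z hz
      have h0 : f.1 z⁻¹ = 0 := image_eq_zero_of_notMem_tsupport (f := fun z => f.1 z⁻¹) hz
      rw [h0]
      simp⟩

omit [μ.IsHaarMeasure] in
lemma tst_bound (f : CG μ) (ε : ℝ) (hε : 0 < ε) (x : G) : ‖(tst μ f ε hε).1 x‖ ≤ 1 := by
  have h1 : (tst μ f ε hε).1 x = (starRingEnd ℂ) (f.1 x⁻¹) / ((‖f.1 x⁻¹‖ + ε : ℝ) : ℂ) := rfl
  have h2 : 0 < ‖f.1 x⁻¹‖ + ε := by positivity
  rw [h1, norm_div, RCLike.norm_conj, Complex.norm_real, Real.norm_eq_abs, abs_of_pos h2,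
    div_le_one h2]
  linarith

lemma conv_tst (f : CG μ) (ε : ℝ) (hε : 0 < ε) :
    (f * tst μ f ε hε).1 1 = ((∫ y, ‖f.1 y‖ ^ 2 / (‖f.1 y‖ + ε) ∂μ : ℝ) : ℂ) := by
  have h1 : (f * tst μ f ε hε).1 1 = ∫ y, f.1 y * (tst μ f ε hε).1 (y⁻¹ * 1) ∂μ := rfl
  rw [h1, ← integral_complex_ofReal]
  refine integral_congr_ae (Eventually.of_forall fun y => ?_)
  have h2 : (tst μ f ε hε).1 (y⁻¹ * 1)
      = (starRingEnd ℂ) (f.1 (y⁻¹ * 1)⁻¹) / ((‖f.1 (y⁻¹ * 1)⁻¹‖ + ε : ℝ) : ℂ) := rfl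
  simp only
  rw [h2, mul_one, inv_inv, mul_div_assoc', Complex.mul_conj, Complex.normSq_eq_norm_sq]
  push_cast
  ring

lemma main (f : CG μ) (h : ∀ g : CG μ, lpn μ ∞ (f * g) ≤ opn μ ∞ f * lpn μ ∞ g) :
    lpn μ 1 f ≤ opn μ ∞ f := by
  have hop : 0 ≤ opn μ ∞ f := Real.sInf_nonneg fun c hc => hc.1
  set K : Set G := tsupport (f.1 : G → ℂ) with hK
  have hKc : IsCompact K := f.2.2
  have hKm : MeasurableSet K := (isClosed_tsupport _).measurableSet
  have hKf : μ K < ∞ := hKc.measure_lt_top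
  have hint : Integrable (fun y => ‖f.1 y‖) μ :=
    (f.2.1.integrable_of_hasCompactSupport f.2.2).norm
  refine le_of_forall_pos_le_add fun δ hδ => ?_
  set ε : ℝ := δ / (1 + μ.real K) with hεd
  have hKr : 0 ≤ μ.real K := measureReal_nonneg
  have hε : 0 < ε := by positivity
  have hint2 : Integrable (fun y => ‖f.1 y‖ ^ 2 / (‖f.1 y‖ + ε)) μ := by
    refine Continuous.integrable_of_hasCompactSupport ?_ ?_
    · refine Continuous.div (f.2.1.norm.pow 2) (f.2.1.norm.add continuous_const) ?_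
      intro y
      positivity
    · refine HasCompactSupport.intro (K := K) hKc ?_
      intro y hy
      have h0 : f.1 y = 0 := image_eq_zero_of_notMem_tsupport hy
      rw [h0]
      simp
  have hind : Integrable (K.indicator fun _ => ε) μ :=
    (integrableOn_const hKf.ne).integrable_indicator hKm
  have h1 : ∫ y, (‖f.1 y‖ - K.indicator (fun _ => ε) y) ∂μ
      ≤ ∫ y, ‖f.1 y‖ ^ 2 / (‖f.1 y‖ + ε) ∂μ := by
    refine integral_mono (hint.sub hind) hint2 fun y => ?_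
    simp only
    have hpos : 0 < ‖f.1 y‖ + ε := by positivity
    by_cases hy : y ∈ K
    · rw [Set.indicator_of_mem hy, le_div_iff₀ hpos]
      nlinarith [sq_nonneg ε]
    · rw [Set.indicator_of_notMem hy]
      have h0 : f.1 y = 0 := image_eq_zero_of_notMem_tsupport hy
      rw [h0]
      simp
  rw [integral_sub hint hind, integral_indicator hKm, setIntegral_const, smul_eq_mul] at h1
  have h2 := le_lpn_top μ (f * tst μ f ε hε) 1
  rw [conv_tst, Complex.norm_real, Real.norm_eq_abs] at h2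
  have h3 := h (tst μ f ε hε)
  have h4 : lpn μ ∞ (tst μ f ε hε) ≤ 1 := lpn_top_le μ _ 1 zero_le_one (tst_bound μ f ε hε)
  have h5 : opn μ ∞ f * lpn μ ∞ (tst μ f ε hε) ≤ opn μ ∞ f := by
    calc _ ≤ opn μ ∞ f * 1 := mul_le_mul_of_nonneg_left h4 hop
      _ = _ := mul_one _
  have h6 : μ.real K * ε ≤ δ := by
    rw [hεd, mul_div_assoc', div_le_iff₀ (by positivity)]
    nlinarith
  rw [lpn_one]
  have h7 := le_abs_self (∫ y, ‖f.1 y‖ ^ 2 / (‖f.1 y‖ + ε) ∂μ)
  linarith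

end H14ONE

open MeasureTheory in
open scoped ENNReal in
theorem ONE (hOPA : OPAStmt) : ONEStmt := by
  intro G _ _ _ _ _ _ _ μ _ f
  obtain ⟨-, -, h3, h4⟩ := hOPA G μ ∞ le_top
  exact le_antisymm (h4 f) (H14ONE.main μ f (h3 f))

end Pool.PK
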